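import Mathlib

/-!
Project XF (helper99): Gaussian sums over a lattice, elementary bounds.
-/

set_option autoImplicit false

namespace Pool.Agent.Q224.XF

open Finset Filter Topology

/-- `∑ 1 / (1 + t²)` converges. -/
lemma gs_summable : Summable (fun t : ℤ => 1 / (1 + (t : ℝ) ^ 2)) := by
  have h1 : Summable (fun t : ℤ => 1 / (t : ℝ) ^ 2) :=
    Real.summable_one_div_int_pow.mpr (by norm_num)
  have h2 : Summable (fun t : ℤ => 1 / (t : ℝ) ^ 2 + if t = 0 then (1 : ℝ) else 0) := by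
    apply h1.add
    exact summable_of_ne_finset_zero (s := {0}) (by
      intro b hb
      rw [Finset.mem_singleton] at hb
      rw [if_neg hb])
  refine Summable.of_nonneg_of_le (fun t => by positivity) (fun t => ?_) h2
  by_cases ht : t = 0
  · subst ht
    simp
  · rw [if_neg ht, add_zero]
    have h3 : (0 : ℝ) < (t : ℝ) ^ 2 := by
      have : (t : ℝ) ≠ 0 := by exact_mod_cast ht
      positivity
    apply one_div_le_one_div_of_le h3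
    linarith

/-- The terms of the one-dimensional sums. -/
lemma gs_term (a x : ℝ) (ha : 0 < a) (N : ℕ) (hN : 1 ≤ N) (t : ℤ) :
    Real.exp (-a * (((t : ℝ) - x) ^ 2 / N)) ≤
      N * ((3 + 2 / a) * (1 / (1 + ((t - ⌊x⌋ : ℤ) : ℝ) ^ 2))) := by
  have hN1 : (1 : ℝ) ≤ N := by exact_mod_cast hN
  have hN0 : (0 : ℝ) < N := by linarith
  have h1 : 1 + a * (((t : ℝ) - x) ^ 2 / N) ≤ Real.exp (a * (((t : ℝ) - x) ^ 2 / N)) := by
    have := Real.add_one_le_exp (a * (((t : ℝ) - x) ^ 2 / N))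
    linarith
  have h2 : 0 ≤ a * (((t : ℝ) - x) ^ 2 / N) := by positivity
  have h3 : Real.exp (-a * (((t : ℝ) - x) ^ 2 / N)) ≤ 1 / (1 + a * (((t : ℝ) - x) ^ 2 / N)) := by
    rw [neg_mul, Real.exp_neg, ← one_div]
    exact one_div_le_one_div_of_le (by linarith) h1
  have hf0 := Int.floor_le x
  have hf1 := Int.lt_floor_add_one x
  have h4 : 1 + ((t - ⌊x⌋ : ℤ) : ℝ) ^ 2 ≤ 3 + 2 * ((t : ℝ) - x) ^ 2 := by
    push_cast
    nlinarith [sq_nonneg ((t : ℝ) - x - (x - ⌊x⌋)), mul_nonneg (sub_nonneg.mpr hf0)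
      (sub_nonneg.mpr hf1.le)]
  have h5 : 1 + ((t - ⌊x⌋ : ℤ) : ℝ) ^ 2 ≤
      N * ((3 + 2 / a) * (1 + a * (((t : ℝ) - x) ^ 2 / N))) := by
    have h6 : N * ((3 + 2 / a) * (1 + a * (((t : ℝ) - x) ^ 2 / N))) =
        N * 3 + N * (2 / a) + 3 * a * ((t : ℝ) - x) ^ 2 + 2 * ((t : ℝ) - x) ^ 2 := by
      field_simp
      ring
    rw [h6]
    have h7 : 0 ≤ (N : ℝ) * (2 / a) := by positivity
    have h8 : 0 ≤ 3 * a * ((t : ℝ) - x) ^ 2 := by positivity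
    linarith
  refine h3.trans ?_
  have h9 : (0 : ℝ) < 1 + ((t - ⌊x⌋ : ℤ) : ℝ) ^ 2 := by positivity
  have h10 : (0 : ℝ) < 1 + a * (((t : ℝ) - x) ^ 2 / N) := by linarith
  have h11 : N * ((3 + 2 / a) * (1 / (1 + ((t - ⌊x⌋ : ℤ) : ℝ) ^ 2))) =
      N * (3 + 2 / a) / (1 + ((t - ⌊x⌋ : ℤ) : ℝ) ^ 2) := by ring
  rw [h11, div_le_div_iff₀ h10 h9, one_mul]
  linarith

/-- The one-dimensional sums over finite sets. -/
lemma gs_one (a x : ℝ) (ha : 0 < a) (N : ℕ) (hN : 1 ≤ N) (s : Finset ℤ) :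
    ∑ t ∈ s, Real.exp (-a * (((t : ℝ) - x) ^ 2 / N)) ≤
      N * ((3 + 2 / a) * ∑' t : ℤ, 1 / (1 + (t : ℝ) ^ 2)) := by
  calc ∑ t ∈ s, Real.exp (-a * (((t : ℝ) - x) ^ 2 / N))
      ≤ ∑ t ∈ s, N * ((3 + 2 / a) * (1 / (1 + ((t - ⌊x⌋ : ℤ) : ℝ) ^ 2))) :=
        Finset.sum_le_sum (fun t _ => gs_term a x ha N hN t)
    _ = N * ((3 + 2 / a) * ∑ t ∈ s, (1 / (1 + ((t - ⌊x⌋ : ℤ) : ℝ) ^ 2))) := by
        rw [Finset.mul_sum, Finset.mul_sum]
    _ ≤ N * ((3 + 2 / a) * ∑' t : ℤ, 1 / (1 + (t : ℝ) ^ 2)) := by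
        have h1 : ∑ t ∈ s, (1 / (1 + ((t - ⌊x⌋ : ℤ) : ℝ) ^ 2)) ≤ ∑' t : ℤ, 1 / (1 + (t : ℝ) ^ 2) := by
          have h2 : ∑ t ∈ s, (1 / (1 + ((t - ⌊x⌋ : ℤ) : ℝ) ^ 2)) =
              ∑ u ∈ s.map (Equiv.subRight ⌊x⌋).toEmbedding, (1 / (1 + ((u : ℤ) : ℝ) ^ 2)) := by
            rw [Finset.sum_map]
            rfl
          rw [h2]
          exact gs_summable.sum_le_tsum _ (fun t _ => by positivity)
        apply mul_le_mul_of_nonneg_left _ (by positivity)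
        exact mul_le_mul_of_nonneg_left h1 (by positivity)

/-- The product of the one-dimensional factors. -/
lemma gs_prod (d : ℕ) (a : ℝ) (x : Fin d → ℝ) (N : ℕ) (t : Fin d → ℤ) :
    Real.exp (-a * ((∑ j, ((t j : ℝ) - x j) ^ 2) / N)) =
      ∏ j, Real.exp (-a * (((t j : ℝ) - x j) ^ 2 / N)) := by
  rw [← Real.exp_sum, ← Finset.mul_sum, Finset.sum_div]

/-- The sums over finite sets of lattice points. -/
lemma gs_fin (d : ℕ) (a : ℝ) (ha : 0 < a) (x : Fin d → ℝ) (N : ℕ) (hN : 1 ≤ N)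
    (s : Finset (Fin d → ℤ)) :
    ∑ t ∈ s, Real.exp (-a * ((∑ j, ((t j : ℝ) - x j) ^ 2) / N)) ≤
      (N * ((3 + 2 / a) * ∑' t : ℤ, 1 / (1 + (t : ℝ) ^ 2))) ^ d := by
  classical
  obtain ⟨S, hS⟩ : ∃ S : Fin d → Finset ℤ, S = fun j => s.image (fun t => t j) := ⟨_, rfl⟩
  have h1 : s ⊆ Fintype.piFinset S := by
    intro t ht
    rw [Fintype.mem_piFinset]
    intro j
    rw [hS]
    exact Finset.mem_image_of_mem (fun t => t j) ht
  calc ∑ t ∈ s, Real.exp (-a * ((∑ j, ((t j : ℝ) - x j) ^ 2) / N))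
      ≤ ∑ t ∈ Fintype.piFinset S, Real.exp (-a * ((∑ j, ((t j : ℝ) - x j) ^ 2) / N)) :=
        Finset.sum_le_sum_of_subset_of_nonneg h1 (fun t _ _ => (Real.exp_pos _).le)
    _ = ∑ t ∈ Fintype.piFinset S, ∏ j, Real.exp (-a * (((t j : ℝ) - x j) ^ 2 / N)) :=
        Finset.sum_congr rfl (fun t _ => gs_prod d a x N t)
    _ = ∏ j, ∑ u ∈ S j, Real.exp (-a * (((u : ℝ) - x j) ^ 2 / N)) :=
        (Finset.prod_univ_sum S
          (fun j (u : ℤ) => Real.exp (-a * (((u : ℝ) - x j) ^ 2 / N)))).symm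
    _ ≤ ∏ _j : Fin d, (N * ((3 + 2 / a) * ∑' t : ℤ, 1 / (1 + (t : ℝ) ^ 2))) :=
        Finset.prod_le_prod (fun j _ => Finset.sum_nonneg (fun u _ => (Real.exp_pos _).le))
          (fun j _ => gs_one a (x j) ha N hN _)
    _ = (N * ((3 + 2 / a) * ∑' t : ℤ, 1 / (1 + (t : ℝ) ^ 2))) ^ d := by
        rw [Finset.prod_const, Finset.card_univ, Fintype.card_fin]

lemma gs_sum (d : ℕ) (a : ℝ) (ha : 0 < a) (x : Fin d → ℝ) (N : ℕ) (hN : 1 ≤ N) :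
    Summable (fun t : Fin d → ℤ => Real.exp (-a * ((∑ j, ((t j : ℝ) - x j) ^ 2) / N))) ∧
    ∑' t : Fin d → ℤ, Real.exp (-a * ((∑ j, ((t j : ℝ) - x j) ^ 2) / N)) ≤
      (N * ((3 + 2 / a) * ∑' t : ℤ, 1 / (1 + (t : ℝ) ^ 2))) ^ d := by
  have h1 : Summable (fun t : Fin d → ℤ => Real.exp (-a * ((∑ j, ((t j : ℝ) - x j) ^ 2) / N))) :=
    summable_of_sum_le (fun t => (Real.exp_pos _).le) (fun s => gs_fin d a ha x N hN s)
  exact ⟨h1, h1.tsum_le_of_sum_le (fun s => gs_fin d a ha x N hN s)⟩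

end Pool.Agent.Q224.XF
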