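import Pool.Agent.Q99.XF.Stm
import Pool.Agent.Q162.HX.FLAP

/-!
Project XF (helper99), job RX: a Gaussian sum over a lattice to all orders.
-/

set_option autoImplicit false

namespace Pool.Agent.Q224.XF

open Finset Filter Topology MeasureTheory
open Pool.Agent.Q99.XF (S_RX S_RX1 S_RX2)
open Pool.Agent.Q99.HX (Xp UA)

/-- Exponentially small perturbations do not change an asymptotic expansion. -/
lemma rx_xp (a b : ℕ → ℂ) (y : ℕ → ℂ) (d : ℕ) (c C : ℝ) (hc : 0 < c) (hb : Xp b y)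
    (hab : ∀ᶠ N : ℕ in atTop, ‖a N - b N‖ ≤ C * N ^ d * Real.exp (-(c * N))) : Xp a y := by
  intro K
  obtain ⟨C1, hC1⟩ := hb K
  -- `N^(d+K) exp (-c N)` tends to zero
  have h1 : Tendsto (fun N : ℕ => (N : ℝ) ^ (d + K) * Real.exp (-(c * N))) atTop (𝓝 0) := by
    have h2 := Real.tendsto_pow_mul_exp_neg_atTop_nhds_zero (d + K)
    have h3 : Tendsto (fun N : ℕ => c * (N : ℝ)) atTop atTop :=
      tendsto_natCast_atTop_atTop.const_mul_atTop hc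
    have h4 := (h2.comp h3).const_mul ((c ^ (d + K))⁻¹)
    rw [mul_zero] at h4
    refine h4.congr (fun N => ?_)
    have h5 : c ^ (d + K) ≠ 0 := by positivity
    simp only [Function.comp]
    rw [mul_pow]
    field_simp
  have h3 : ∀ᶠ N : ℕ in atTop, (N : ℝ) ^ (d + K) * Real.exp (-(c * N)) ≤ 1 := by
    have := h1.eventually (eventually_le_nhds (show (0 : ℝ) < 1 by norm_num))
    exact this
  refine ⟨|C| + C1, ?_⟩
  filter_upwards [hab, hC1, h3, eventually_ge_atTop 1] with N h4 h5 h6 hN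
  have hN0 : (0 : ℝ) < N := by exact_mod_cast hN
  have hK : (0 : ℝ) < (N : ℝ) ^ K := by positivity
  have h7 : C * N ^ d * Real.exp (-(c * N)) ≤ |C| / (N : ℝ) ^ K := by
    rw [le_div_iff₀ hK]
    calc C * N ^ d * Real.exp (-(c * N)) * (N : ℝ) ^ K
        ≤ |C| * N ^ d * Real.exp (-(c * N)) * (N : ℝ) ^ K := by
          gcongr
          exact le_abs_self C
      _ = |C| * ((N : ℝ) ^ (d + K) * Real.exp (-(c * N))) := by
          rw [pow_add]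
          ring
      _ ≤ |C| * 1 := mul_le_mul_of_nonneg_left h6 (abs_nonneg C)
      _ = |C| := mul_one _
  calc ‖a N - ∑ k ∈ range K, y k / (N : ℂ) ^ k‖
      = ‖(a N - b N) + (b N - ∑ k ∈ range K, y k / (N : ℂ) ^ k)‖ := by
        congr 1
        ring
    _ ≤ ‖a N - b N‖ + ‖b N - ∑ k ∈ range K, y k / (N : ℂ) ^ k‖ := norm_add_le _ _
    _ ≤ |C| / (N : ℝ) ^ K + C1 / (N : ℝ) ^ K := add_le_add (h4.trans h7) h5
    _ = (|C| + C1) / (N : ℝ) ^ K := by ring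

theorem task_RX : S_RX := by
  intro hRX1 hRX2 d τ κ C R κ' K hκ hR hκ' hK g q H hg hqan hq0 hq1 hqre hHU hHd hgH
  -- the bound of the amplitude
  obtain ⟨h, hUX, -⟩ := id hHU
  obtain ⟨B0, hB0⟩ := hUX 0
  have hB : ∀ᶠ N : ℕ in atTop, ∀ u ∈ Metric.ball (0 : Fin d → ℂ) R, ‖H N u‖ ≤ max B0 0 := by
    filter_upwards [hB0] with N hN u hu
    have h1 := hN u hu
    rw [Finset.sum_range_zero, sub_zero, pow_zero, div_one] at h1
    exact h1.trans (le_max_left _ _)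
  -- Laplace
  have hre : ∀ x : Fin d → ℝ, (∀ i, |x i| < R) → (q fun i => x i).re ≤ -κ' * ∑ i, x i ^ 2 := by
    intro x hx
    have hmem : (fun i => (x i : ℂ)) ∈ Metric.ball (0 : Fin d → ℂ) R := by
      rw [mem_ball_zero_iff, pi_norm_lt_iff hR]
      intro i
      rw [Complex.norm_real, Real.norm_eq_abs]
      exact hx i
    have h1 := hqre _ hmem
    simpa using h1
  have hcont : ∀ᶠ N : ℕ in atTop, ContinuousOn (H N) (Metric.ball 0 R) := by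
    filter_upwards [hHd] with N hN
    exact hN.continuousOn
  obtain ⟨η0, hη0, hη0R, hlap⟩ := Pool.Agent.Q162.HX.task_FLAP (Fin d) R κ' hR hκ' q H hqan hq0 hq1
    hre hcont hHU
  have hR4 : 0 < R / 4 := by linarith
  obtain ⟨δ, hδ⟩ : ∃ δ : ℝ, δ = min η0 (R / 4) := ⟨_, rfl⟩
  have hδ0 : 0 < δ := by
    rw [hδ]
    exact lt_min hη0 hR4
  have hδη : δ ≤ η0 := by
    rw [hδ]
    exact min_le_left _ _
  have hδR : δ ≤ R / 4 := by
    rw [hδ]
    exact min_le_right _ _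
  obtain ⟨y, hy⟩ := hlap δ hδ0 hδη
  obtain ⟨c1, C1, hc1, hC1⟩ := hRX1 d τ R κ' K (max B0 0) hR hκ' hK (le_max_right _ _) q H
    hqan.differentiableOn hqre hHd hB δ hδ0 hδR
  obtain ⟨c2, C2, hc2, hC2⟩ := hRX2 d τ κ C hκ g hg δ hδ0
  refine ⟨y, ?_⟩
  refine rx_xp _ _ y d (min c1 c2) (|C1| + |C2|) (lt_min hc1 hc2) hy ?_
  filter_upwards [hC1, hC2, hgH, eventually_ge_atTop 1] with N h1 h2 h3 hN
  have hN0 : (0 : ℝ) < N := by exact_mod_cast hN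
  have hN1 : (1 : ℝ) ≤ N := by exact_mod_cast hN
  -- the sum over the box
  have hbox : ∑ t ∈ Fintype.piFinset
      (fun j => Icc ⌈(N : ℝ) * (τ j - δ)⌉ ⌊(N : ℝ) * (τ j + δ)⌋), g N t =
      ∑ t ∈ Fintype.piFinset (fun j => Icc ⌈(N : ℝ) * (τ j - δ)⌉ ⌊(N : ℝ) * (τ j + δ)⌋),
        Complex.exp (N * q (fun j => (t j : ℂ) / N - τ j)) *
          H N (fun j => (t j : ℂ) / N - τ j) := by
    apply Finset.sum_congr rfl
    intro t ht
    apply h3 t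
    intro j
    rw [Fintype.mem_piFinset] at ht
    have h4 := Finset.mem_Icc.mp (ht j)
    have h5 := Int.ceil_le.mp h4.1
    have h6 := Int.le_floor.mp h4.2
    have h7 : τ j - δ ≤ (t j : ℝ) / N := by
      rw [le_div_iff₀ hN0]
      linarith
    have h8 : (t j : ℝ) / N ≤ τ j + δ := by
      rw [div_le_iff₀ hN0]
      linarith
    rw [abs_lt]
    constructor <;> linarith
  rw [hbox] at h2
  obtain ⟨Sb, hSb⟩ : ∃ Sb : ℂ, Sb = ∑ t ∈ Fintype.piFinset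
    (fun j => Icc ⌈(N : ℝ) * (τ j - δ)⌉ ⌊(N : ℝ) * (τ j + δ)⌋),
        Complex.exp (N * q (fun j => (t j : ℂ) / N - τ j)) *
          H N (fun j => (t j : ℂ) / N - τ j) := ⟨_, rfl⟩
  rw [← hSb] at h1 h2
  obtain ⟨J, hJ⟩ : ∃ J : ℂ, J = ∫ x in {x : Fin d → ℝ | ∀ i, |x i| ≤ δ},
      Complex.exp (N * q fun i => x i) * H N fun i => x i := ⟨_, rfl⟩
  rw [← hJ] at h1
  rw [Fintype.card_fin, ← hJ]
  have hs0 : (0 : ℝ) < √(N : ℝ) := Real.sqrt_pos.mpr hN0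
  have hs1 : (1 : ℝ) ≤ √(N : ℝ) := Real.one_le_sqrt.mpr hN1
  have hsC : (((√N : ℝ) : ℂ)) ≠ 0 := by exact_mod_cast hs0.ne'
  have hsN : (N : ℂ) = ((√N : ℝ) : ℂ) * ((√N : ℝ) : ℂ) := by
    rw [← Complex.ofReal_mul, Real.mul_self_sqrt hN0.le]
    simp
  have heq : (((√N : ℝ) : ℂ) ^ d)⁻¹ * ∑' t, g N t - ((√N : ℝ) : ℂ) ^ d * J =
      (((√N : ℝ) : ℂ) ^ d)⁻¹ * ((∑' t, g N t - Sb) + (Sb - (N : ℂ) ^ d * J)) := by
    have h9 : (((√N : ℝ) : ℂ) ^ d)⁻¹ * (N : ℂ) ^ d = ((√N : ℝ) : ℂ) ^ d := by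
      have h10 : (N : ℂ) ^ d = ((√N : ℝ) : ℂ) ^ d * ((√N : ℝ) : ℂ) ^ d := by
        rw [← mul_pow, ← hsN]
      rw [h10, ← mul_assoc, inv_mul_cancel₀ (pow_ne_zero d hsC), one_mul]
    rw [show (∑' t, g N t - Sb) + (Sb - (N : ℂ) ^ d * J) = ∑' t, g N t - (N : ℂ) ^ d * J by ring,
      mul_sub, ← mul_assoc, h9]
  rw [heq, norm_mul]
  have h11 : ‖(((√N : ℝ) : ℂ) ^ d)⁻¹‖ ≤ 1 := by
    rw [norm_inv, norm_pow, Complex.norm_real, Real.norm_eq_abs, abs_of_pos hs0]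
    exact inv_le_one_of_one_le₀ (one_le_pow₀ hs1)
  have hm1 : Real.exp (-(c1 * N)) ≤ Real.exp (-(min c1 c2 * N)) := by
    apply Real.exp_le_exp.mpr
    have := min_le_left c1 c2
    nlinarith
  have hm2 : Real.exp (-(c2 * N)) ≤ Real.exp (-(min c1 c2 * N)) := by
    apply Real.exp_le_exp.mpr
    have := min_le_right c1 c2
    nlinarith
  have h12 : ‖Sb - (N : ℂ) ^ d * J‖ ≤ |C1| * N ^ d * Real.exp (-(min c1 c2 * N)) := by
    refine h1.trans ?_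
    calc C1 * (N : ℝ) ^ d * Real.exp (-(c1 * N))
        ≤ |C1| * (N : ℝ) ^ d * Real.exp (-(c1 * N)) := by
          gcongr
          exact le_abs_self C1
      _ ≤ |C1| * (N : ℝ) ^ d * Real.exp (-(min c1 c2 * N)) := by
          gcongr
  have h13 : ‖∑' t, g N t - Sb‖ ≤ |C2| * N ^ d * Real.exp (-(min c1 c2 * N)) := by
    refine h2.trans ?_
    calc C2 * (N : ℝ) ^ d * Real.exp (-(c2 * N))
        ≤ |C2| * (N : ℝ) ^ d * Real.exp (-(c2 * N)) := by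
          gcongr
          exact le_abs_self C2
      _ ≤ |C2| * (N : ℝ) ^ d * Real.exp (-(min c1 c2 * N)) := by
          gcongr
  calc ‖(((√N : ℝ) : ℂ) ^ d)⁻¹‖ * ‖(∑' t, g N t - Sb) + (Sb - (N : ℂ) ^ d * J)‖
      ≤ 1 * ‖(∑' t, g N t - Sb) + (Sb - (N : ℂ) ^ d * J)‖ :=
        mul_le_mul_of_nonneg_right h11 (norm_nonneg _)
    _ = ‖(∑' t, g N t - Sb) + (Sb - (N : ℂ) ^ d * J)‖ := one_mul _
    _ ≤ ‖∑' t, g N t - Sb‖ + ‖Sb - (N : ℂ) ^ d * J‖ := norm_add_le _ _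
    _ ≤ |C2| * N ^ d * Real.exp (-(min c1 c2 * N)) +
        |C1| * N ^ d * Real.exp (-(min c1 c2 * N)) := add_le_add h13 h12
    _ = (|C1| + |C2|) * N ^ d * Real.exp (-(min c1 c2 * N)) := by ring

end Pool.Agent.Q224.XF
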