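import Pool.Agent.Q99.XF.Stm
import Pool.Agent.Q224.XF.Gs

/-!
Project XF (helper99), job RX2: the far terms of a Gaussian lattice sum are exponentially small.
-/

set_option autoImplicit false

namespace Pool.Agent.Q224.XF

open Finset Filter Topology
open Pool.Agent.Q99.XF (S_RX2)

/-- Outside of the box one coordinate is far away. -/
lemma rx2_far (d : ℕ) (τ : Fin d → ℝ) (δ : ℝ) (hδ : 0 < δ) (N : ℕ) (hN : 1 ≤ N) (t : Fin d → ℤ)
    (ht : t ∉ Fintype.piFinset (fun j => Icc ⌈(N : ℝ) * (τ j - δ)⌉ ⌊(N : ℝ) * (τ j + δ)⌋)) :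
    δ ^ 2 * N ≤ (∑ j, ((t j : ℝ) - N * τ j) ^ 2) / N := by
  have hN0 : (0 : ℝ) < N := by exact_mod_cast hN
  rw [Fintype.mem_piFinset] at ht
  push Not at ht
  obtain ⟨j, hj⟩ := ht
  have h1 : (N * δ) ^ 2 ≤ ((t j : ℝ) - N * τ j) ^ 2 := by
    by_cases h : ⌈(N : ℝ) * (τ j - δ)⌉ ≤ t j
    · have h2 : ¬ (t j ≤ ⌊(N : ℝ) * (τ j + δ)⌋) := fun h3 => hj (Finset.mem_Icc.mpr ⟨h, h3⟩)
      rw [Int.le_floor] at h2
      push Not at h2
      have h3 : (N : ℝ) * δ ≤ (t j : ℝ) - N * τ j := by linarith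
      exact pow_le_pow_left₀ (by positivity) h3 2
    · rw [Int.ceil_le] at h
      push Not at h
      have h3 : (N : ℝ) * δ ≤ -((t j : ℝ) - N * τ j) := by linarith
      have h4 := pow_le_pow_left₀ (by positivity) h3 2
      rwa [neg_sq] at h4
  have h2 : ((t j : ℝ) - N * τ j) ^ 2 ≤ ∑ j, ((t j : ℝ) - N * τ j) ^ 2 :=
    Finset.single_le_sum (f := fun j => ((t j : ℝ) - N * τ j) ^ 2) (fun i _ => sq_nonneg _)
      (Finset.mem_univ j)
  rw [le_div_iff₀ hN0]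
  nlinarith

theorem task_RX2 : S_RX2 := by
  intro d τ κ C hκ g hg δ hδ
  refine ⟨κ / 2 * δ ^ 2, |C| * ((3 + 2 / (κ / 2)) * ∑' t : ℤ, 1 / (1 + (t : ℝ) ^ 2)) ^ d,
    by positivity, ?_⟩
  filter_upwards [hg, eventually_ge_atTop 1] with N hgN hN
  have hN0 : (0 : ℝ) < N := by exact_mod_cast hN
  obtain ⟨B, hB⟩ : ∃ B : Finset (Fin d → ℤ), B = Fintype.piFinset
    (fun j => Icc ⌈(N : ℝ) * (τ j - δ)⌉ ⌊(N : ℝ) * (τ j + δ)⌋) := ⟨_, rfl⟩
  have hfar : ∀ t : Fin d → ℤ, t ∉ B → δ ^ 2 * N ≤ (∑ j, ((t j : ℝ) - N * τ j) ^ 2) / N := by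
    intro t ht
    rw [hB] at ht
    exact rx2_far d τ δ hδ N hN t ht
  rw [← hB]
  -- summability
  have hsum1 := (gs_sum d κ hκ (fun j => N * τ j) N hN).1
  have hgs : Summable (g N) := Summable.of_norm_bounded (hsum1.mul_left C) (fun t => hgN t)
  obtain ⟨hsum2, hle2⟩ := gs_sum d (κ / 2) (half_pos hκ) (fun j => N * τ j) N hN
  -- the difference
  have hdiff : ∑' t : Fin d → ℤ, g N t - ∑ t ∈ B, g N t =
      ∑' t : Fin d → ℤ, (g N t - if t ∈ B then g N t else 0) := by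
    have h1 : ∑ t ∈ B, g N t = ∑' t : Fin d → ℤ, (if t ∈ B then g N t else 0) := by
      rw [tsum_eq_sum (s := B)]
      · exact Finset.sum_congr rfl (fun t ht => (if_pos ht).symm)
      · intro t ht
        exact if_neg ht
    have h2 : Summable (fun t : Fin d → ℤ => if t ∈ B then g N t else 0) :=
      summable_of_ne_finset_zero (s := B) (fun t ht => if_neg ht)
    rw [h1, hgs.tsum_sub h2]
  rw [hdiff]
  have hbound : ∀ t : Fin d → ℤ, ‖g N t - if t ∈ B then g N t else 0‖ ≤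
      (|C| * Real.exp (-(κ / 2 * δ ^ 2 * N))) *
        Real.exp (-(κ / 2) * ((∑ j, ((t j : ℝ) - N * τ j) ^ 2) / N)) := by
    intro t
    by_cases ht : t ∈ B
    · rw [if_pos ht, sub_self, norm_zero]
      positivity
    · rw [if_neg ht, sub_zero]
      refine (hgN t).trans ?_
      have h1 := hfar t ht
      have h2 : Real.exp (-κ * ((∑ j, ((t j : ℝ) - N * τ j) ^ 2) / N)) ≤
          Real.exp (-(κ / 2 * δ ^ 2 * N)) *
            Real.exp (-(κ / 2) * ((∑ j, ((t j : ℝ) - N * τ j) ^ 2) / N)) := by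
        rw [← Real.exp_add]
        apply Real.exp_le_exp.mpr
        nlinarith
      calc C * Real.exp (-κ * ((∑ j, ((t j : ℝ) - N * τ j) ^ 2) / N))
          ≤ |C| * Real.exp (-κ * ((∑ j, ((t j : ℝ) - N * τ j) ^ 2) / N)) :=
            mul_le_mul_of_nonneg_right (le_abs_self C) (Real.exp_pos _).le
        _ ≤ |C| * (Real.exp (-(κ / 2 * δ ^ 2 * N)) *
            Real.exp (-(κ / 2) * ((∑ j, ((t j : ℝ) - N * τ j) ^ 2) / N))) :=
            mul_le_mul_of_nonneg_left h2 (abs_nonneg C)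
        _ = _ := by ring
  have h3 : ‖∑' t : Fin d → ℤ, (g N t - if t ∈ B then g N t else 0)‖ ≤
      (|C| * Real.exp (-(κ / 2 * δ ^ 2 * N))) *
        ∑' t : Fin d → ℤ, Real.exp (-(κ / 2) * ((∑ j, ((t j : ℝ) - N * τ j) ^ 2) / N)) :=
    tsum_of_norm_bounded (hsum2.hasSum.mul_left _) hbound
  refine h3.trans ?_
  calc (|C| * Real.exp (-(κ / 2 * δ ^ 2 * N))) *
        ∑' t : Fin d → ℤ, Real.exp (-(κ / 2) * ((∑ j, ((t j : ℝ) - N * τ j) ^ 2) / N))
      ≤ (|C| * Real.exp (-(κ / 2 * δ ^ 2 * N))) *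
        (N * ((3 + 2 / (κ / 2)) * ∑' t : ℤ, 1 / (1 + (t : ℝ) ^ 2))) ^ d :=
        mul_le_mul_of_nonneg_left hle2 (by positivity)
    _ = _ := by
        rw [mul_pow]
        ring

end Pool.Agent.Q224.XF
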